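import Pool.Agent.J6H36.BSV.Defs

/-! Project BSV, module INJ: every extension of fields induces an injective map. -/

set_option autoImplicit false

universe u

namespace Pool.Agent.J6H50.BSV

open Pool.Agent.J6H36.BSV

theorem t_INJ : S_INJ.{u} := by
  classical
  intro T i n F K _ _ f
  rw [injective_iff_map_eq_zero]
  intro x hx
  obtain ⟨t, x0, hx0⟩ := T.lift i n F x
  have hmem : ∀ a : Subring.closure (t : Set F),
      (f.comp (Subring.closure (t : Set F)).subtype) a ∈
        Subring.closure ((t.image f : Finset K) : Set K) := by
    intro a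
    have h1 : (Subring.closure (t : Set F)).map f =
        Subring.closure ((t.image f : Finset K) : Set K) := by
      rw [RingHom.map_closure, Finset.coe_image]
    rw [← h1]
    exact ⟨a, a.2, rfl⟩
  set g : Subring.closure (t : Set F) →+* Subring.closure ((t.image f : Finset K) : Set K) :=
    (f.comp (Subring.closure (t : Set F)).subtype).codRestrict _ hmem with hg
  have h1 : T.map i n (Subring.closure ((t.image f : Finset K) : Set K)).subtype
      (T.map i n g x0) = 0 := by
    rw [← T.map_comp]
    have e : (Subring.closure ((t.image f : Finset K) : Set K)).subtype.comp g =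
        f.comp (Subring.closure (t : Set F)).subtype := RingHom.ext fun a => rfl
    rw [e, T.map_comp, hx0, hx]
  obtain ⟨t', hle, hy⟩ := T.ker i n K _ _ h1
  let alg : Algebra F K := f.toAlgebra
  let D : Subalgebra F K := Algebra.adjoin F (t' : Set K)
  have hD : Algebra.FiniteType F D := (Subalgebra.fg_iff_finiteType D).1 ⟨t', rfl⟩
  obtain ⟨m, hm⟩ := Ideal.exists_maximal D
  let fld : Field (D ⧸ m) := Ideal.Quotient.field m
  have hL : Algebra.FiniteType F (D ⧸ m) :=
    Algebra.FiniteType.of_surjective (Ideal.Quotient.mkₐ F m) (Ideal.Quotient.mkₐ_surjective F m)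
  have hfin : Module.Finite F (D ⧸ m) := finite_of_finite_type_of_isJacobsonRing F (D ⧸ m)
  have hmem2 : ∀ a : Subring.closure (t' : Set K),
      (Subring.closure (t' : Set K)).subtype a ∈ D := by
    intro a
    have h2 : Subring.closure (t' : Set K) ≤ D.toSubring := by
      rw [Subring.closure_le]
      exact Algebra.subset_adjoin
    exact h2 a.2
  let φ : Subring.closure (t' : Set K) →+* D :=
    (Subring.closure (t' : Set K)).subtype.codRestrict D hmem2
  have key : (algebraMap F (D ⧸ m)).comp (Subring.closure (t : Set F)).subtype =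
      (Ideal.Quotient.mk m).comp (φ.comp ((Subring.inclusion hle).comp g)) := by
    refine RingHom.ext fun a => ?_
    rfl
  have h3 : T.map i n (algebraMap F (D ⧸ m)) x = 0 := by
    rw [← hx0, ← T.map_comp, key, T.map_comp, T.map_comp, T.map_comp, hy, map_zero, map_zero]
  have h4 := T.fin i n F (D ⧸ m)
  rw [injective_iff_map_eq_zero] at h4
  exact h4 x h3

end Pool.Agent.J6H50.BSV
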